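import Pool.Agent.Helper68K9.MWQ.Sq5

/-!
# MP_3b0be2_nt: almost all moduli `q`, all numerators, all polynomials, all linear coefficients

For an arbitrary bounded sequence `c_n` (for example `e(t n^k)`), sums `∑ c_n e(f(n)/q + ξ n)` are bounded
simultaneously for ALL polynomials `f` of degree at most `k` that are nonlinear modulo the primes `p > k` dividing `q`,
all real `ξ`, all subintervals and all lengths `N ≥ (2q)^(1+2η)`, for all squarefree `q` in `(Q, 2Q]` with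
`O(Q^(2η-ε))` exceptions and for all `q` in `(Q, 2Q]` with `O(Q^(1-ε/26))` exceptions.  Method: duality over the set
of bad moduli, the bound for incomplete sums to the modulus `lcm(q, q')` (after removing the primes modulo which the
difference polynomial is linear), and the average of `gcd(q, q')`.
-/

set_option autoImplicit false

namespace Pool.Agent.Results.MP_3b0be2_nt.AlmostAllModuli

open Pool.Agent.Helper68K9.MWQ Pool.Agent.Y951.MW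

/-- `f` has degree at most `k` and, for every prime `p > k` dividing `q`, a coefficient of index at least `2` not
divisible by `p`. -/
def Nonlinear (k q : ℕ) (f : Polynomial ℤ) : Prop :=
  f.natDegree ≤ k ∧ ∀ p : ℕ, p.Prime → p ∣ q → k < p → ∃ i : ℕ, 2 ≤ i ∧ ¬ (p : ℤ) ∣ f.coeff i

/-- For some `f` as above, some real `ξ` and some `u`, `v` with `v ≤ N`, the sum of `c_n e(f(n)/q + ξ n)` over
`u < n ≤ v` has absolute value at least `V`. -/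
def LargeFor (c : ℕ → ℂ) (k N q : ℕ) (V : ℝ) : Prop :=
  ∃ f : Polynomial ℤ, Nonlinear k q f ∧ ∃ (ξ : ℝ) (u v : ℕ), v ≤ N ∧
    V ≤ ‖∑ n ∈ Finset.Ioc u v, c n * Complex.exp (2 * (Real.pi : ℂ) * Complex.I *
      ((((f.eval (n : ℤ) : ℤ) : ℝ) / q + ξ * n : ℝ) : ℂ))‖

/-- For some length `N ≥ (2q)^(1+2η)`, some `f` as above, some real `ξ` and some `u`, `v` with `v ≤ N`, the sum of
`c_n e(f(n)/q + ξ n)` over `u < n ≤ v` has absolute value greater than `N^(1+ε) q^(-η)`. -/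
def BadModulus (c : ℕ → ℂ) (k : ℕ) (η ε : ℝ) (q : ℕ) : Prop :=
  ∃ N : ℕ, (2 * (q : ℝ)) ^ (1 + 2 * η) ≤ N ∧ ∃ f : Polynomial ℤ, Nonlinear k q f ∧ ∃ (ξ : ℝ) (u v : ℕ), v ≤ N ∧
    (N : ℝ) ^ (1 + ε) / (q : ℝ) ^ η <
      ‖∑ n ∈ Finset.Ioc u v, c n * Complex.exp (2 * (Real.pi : ℂ) * Complex.I *
        ((((f.eval (n : ℤ) : ℤ) : ℝ) / q + ξ * n : ℝ) : ℂ))‖

/-- For some length `N ≥ (2q)^(1+2/k)`, some `b` coprime to `q` and some real `ξ`, the Weyl sum at `(t + b/q, ξ)` is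
greater than the bound `N^(1+ε) (1/q + 1/N + q/N^k)^(1/k)` of `H_k(1/k)` (constant `1`). -/
def ExceedsAt (t : ℝ) (k : ℕ) (ε : ℝ) (q : ℕ) : Prop :=
  ∃ N : ℕ, (2 * (q : ℝ)) ^ (1 + 2 / (k : ℝ)) ≤ N ∧ ∃ b : ℤ, IsCoprime b (q : ℤ) ∧ ∃ ξ : ℝ,
    (N : ℝ) ^ (1 + ε) * (1 / (q : ℝ) + 1 / (N : ℝ) + (q : ℝ) / (N : ℝ) ^ k) ^ (1 / (k : ℝ)) <
      ‖∑ n ∈ Finset.Icc 1 N, Complex.exp (2 * (Real.pi : ℂ) * Complex.I *
        (((t + (b : ℝ) / (q : ℝ)) * (n : ℝ) ^ k + ξ * (n : ℝ) : ℝ) : ℂ))‖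

theorem exceeds_bad (t : ℝ) (k : ℕ) (hk : 2 ≤ k) (ε : ℝ) (q : ℕ) (hq : 1 ≤ q) (h : ExceedsAt t k ε q) :
    BadQ (fun n => Pool.Agent.Y933.KD.e (t * (n : ℝ) ^ k)) k (1 / (k : ℝ)) ε q := by
  obtain ⟨N, hN, b, hb, ξ, hbig⟩ := h
  have hk0 : (0 : ℝ) < k := by
    have : 0 < k := by omega
    exact_mod_cast this
  have hq0 : (0 : ℝ) < q := by exact_mod_cast hq
  refine ⟨N, ?_, Polynomial.C b * Polynomial.X ^ k, ⟨?_, ?_⟩, ξ, 0, N, le_rfl, ?_⟩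
  · have : (1 : ℝ) + 2 * (1 / (k : ℝ)) = 1 + 2 / (k : ℝ) := by ring
    rw [this]
    exact hN
  · exact (Polynomial.natDegree_C_mul_X_pow_le b k)
  · intro p hp hpq _
    refine ⟨k, hk, ?_⟩
    rw [Polynomial.coeff_C_mul_X_pow, if_pos rfl]
    intro hpb
    have h1 : IsUnit (p : ℤ) := hb.isUnit_of_dvd' hpb (Int.natCast_dvd_natCast.mpr hpq)
    have h2 := Int.isUnit_iff.mp h1
    have h3 := hp.two_le
    omega
  · refine lt_of_le_of_lt ?_ (hbig.trans_eq ?_)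
    · have h1 : (N : ℝ) ^ (1 + ε) / (q : ℝ) ^ (1 / (k : ℝ)) = (N : ℝ) ^ (1 + ε) * (1 / (q : ℝ)) ^ (1 / (k : ℝ)) := by
        rw [Real.div_rpow (by norm_num) hq0.le, Real.one_rpow]
        ring
      rw [h1]
      apply mul_le_mul_of_nonneg_left _ (by positivity)
      apply Real.rpow_le_rpow (by positivity) _ (by positivity)
      have : 0 ≤ 1 / (N : ℝ) + (q : ℝ) / (N : ℝ) ^ k := by positivity
      linarith
    · congr 1
      have h2 : Finset.Ioc 0 N = Finset.Icc 1 N := by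
        ext n; simp only [Finset.mem_Icc, Finset.mem_Ioc]; omega
      rw [h2]
      apply Finset.sum_congr rfl
      intro n _
      rw [← Pool.Agent.Y933.KD.e_add, e_eq]
      congr 1
      congr 1
      congr 1
      rw [Polynomial.eval_mul, Polynomial.eval_C, Polynomial.eval_pow, Polynomial.eval_X]
      push_cast
      ring

theorem count_le (P : ℕ → Prop) (Q : ℕ) (B : ℝ)
    (h : ∀ S : Finset ℕ, (∀ q ∈ S, Q < q ∧ q ≤ 2 * Q ∧ P q) → (S.card : ℝ) ≤ B) :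
    (({q : ℕ | Q < q ∧ q ≤ 2 * Q ∧ P q}.ncard : ℕ) : ℝ) ≤ B := by
  have hfin : {q : ℕ | Q < q ∧ q ≤ 2 * Q ∧ P q}.Finite :=
    (Set.finite_Icc 0 (2 * Q)).subset (fun q hq => ⟨Nat.zero_le q, hq.2.1⟩)
  rw [Set.ncard_eq_toFinset_card _ hfin]
  exact h _ (fun q hq => hfin.mem_toFinset.mp hq)

/-- **(1)** squarefree moduli: if `C N Q^(1+ε) ≤ V²`, at most `C Q^ε N²/V²` squarefree `q` in `[Q, 4Q]` are `LargeFor`.

**(2)** moduli without square divisors `d²`, `d > D`: if `C D⁶ N Q^(1+ε) ≤ V²`, at most `C D¹² Q^ε N²/V²` of those `q`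
in `(Q, 2Q]` are `LargeFor`.

**(3)** `0 ≤ η ≤ 1/2`: the number of squarefree `q` in `(Q, 2Q]` with `BadModulus` is at most `C Q^(2η-ε)`, and the
number of all `q` in `(Q, 2Q]` with `BadModulus` is at most `C Q^(1-ε/26)`.

**(4)** for every real `t`: the number of squarefree `q` in `(Q, 2Q]` with `ExceedsAt` is at most `C Q^(2/k-ε)`, and
the number of all `q` in `(Q, 2Q]` with `ExceedsAt` is at most `C Q^(1-ε/26)`. -/
theorem result :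
    (∀ k : ℕ, 2 ≤ k → ∀ ε : ℝ, 0 < ε → ∃ C : ℝ, 1 ≤ C ∧ ∀ Q N : ℕ, 1 ≤ Q →
      ∀ c : ℕ → ℂ, (∀ n, ‖c n‖ ≤ 1) → ∀ V : ℝ, 0 < V → C * N * (Q : ℝ) ^ (1 + ε) ≤ V ^ 2 →
      ∀ S : Finset ℕ, (∀ q ∈ S, Squarefree q ∧ Q ≤ q ∧ q ≤ 4 * Q ∧ LargeFor c k N q V) →
      (S.card : ℝ) ≤ C * (Q : ℝ) ^ ε * (N : ℝ) ^ 2 / V ^ 2) ∧
    (∀ k : ℕ, 2 ≤ k → ∀ ε : ℝ, 0 < ε → ∃ C : ℝ, 1 ≤ C ∧ ∀ Q N D : ℕ, 1 ≤ Q → 1 ≤ D →
      ∀ c : ℕ → ℂ, (∀ n, ‖c n‖ ≤ 1) → ∀ V : ℝ, 0 < V → C * (D : ℝ) ^ 6 * N * (Q : ℝ) ^ (1 + ε) ≤ V ^ 2 →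
      ∀ S : Finset ℕ, (∀ q ∈ S, (∀ d : ℕ, d ^ 2 ∣ q → d ≤ D) ∧ Q < q ∧ q ≤ 2 * Q ∧ LargeFor c k N q V) →
      (S.card : ℝ) ≤ C * (D : ℝ) ^ 12 * (Q : ℝ) ^ ε * (N : ℝ) ^ 2 / V ^ 2) ∧
    (∀ k : ℕ, 2 ≤ k → ∀ η ε : ℝ, 0 ≤ η → η ≤ 1 / 2 → 0 < ε → ∃ C : ℝ, 0 < C ∧ ∀ Q : ℕ, 1 ≤ Q →
      ∀ c : ℕ → ℂ, (∀ n, ‖c n‖ ≤ 1) →
      (({q : ℕ | Q < q ∧ q ≤ 2 * Q ∧ (Squarefree q ∧ BadModulus c k η ε q)}.ncard : ℕ) : ℝ) ≤
        C * (Q : ℝ) ^ (2 * η - ε) ∧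
      (({q : ℕ | Q < q ∧ q ≤ 2 * Q ∧ BadModulus c k η ε q}.ncard : ℕ) : ℝ) ≤ C * (Q : ℝ) ^ (1 - ε / 26)) ∧
    (∀ k : ℕ, 2 ≤ k → ∀ ε : ℝ, 0 < ε → ∃ C : ℝ, 0 < C ∧ ∀ Q : ℕ, 1 ≤ Q → ∀ t : ℝ,
      (({q : ℕ | Q < q ∧ q ≤ 2 * Q ∧ (Squarefree q ∧ ExceedsAt t k ε q)}.ncard : ℕ) : ℝ) ≤
        C * (Q : ℝ) ^ (2 / (k : ℝ) - ε) ∧
      (({q : ℕ | Q < q ∧ q ≤ 2 * Q ∧ ExceedsAt t k ε q}.ncard : ℕ) : ℝ) ≤ C * (Q : ℝ) ^ (1 - ε / 26)) := by
  have hbad : ∀ (c : ℕ → ℂ) (k : ℕ) (η ε : ℝ) (q : ℕ), BadModulus c k η ε q → BadQ c k η ε q := by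
    intro c k η ε q h
    unfold BadModulus at h
    simp only [← e_eq] at h
    exact h
  refine ⟨?_, ?_, ?_, ?_⟩
  · intro k hk ε hε
    obtain ⟨C, hC, h⟩ := sqf k hk ε hε
    refine ⟨C, hC, fun Q N hQ c hc V hV hV2 S hS => ?_⟩
    unfold LargeFor at hS
    simp only [← e_eq] at hS
    exact h Q N hQ c hc V hV hV2 S hS
  · intro k hk ε hε
    obtain ⟨C, hC, h⟩ := allq k hk ε hε
    refine ⟨C, hC, fun Q N D hQ hD c hc V hV hV2 S hS => ?_⟩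
    unfold LargeFor at hS
    simp only [← e_eq] at hS
    exact h Q N D hQ hD c hc V hV hV2 S hS
  · intro k hk η ε hη hη1 hε
    obtain ⟨C1, hC1, h1⟩ := sqf_exp k hk η ε hη hη1 hε
    obtain ⟨C2, hC2, h2⟩ := all_exp k hk η ε hη hη1 hε
    refine ⟨C1 + C2, by positivity, fun Q hQ c hc => ⟨?_, ?_⟩⟩
    · have h3 := count_le (fun q => Squarefree q ∧ BadModulus c k η ε q) Q (C1 * (Q : ℝ) ^ (2 * η - ε))
        (fun S hS => h1 Q hQ c hc S (fun q hq => by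
          obtain ⟨h3, h4, h5, h6⟩ := hS q hq
          exact ⟨h5, h3, h4, hbad c k η ε q h6⟩))
      refine h3.trans (mul_le_mul_of_nonneg_right (by linarith) (by positivity))
    · have h3 := count_le (fun q => BadModulus c k η ε q) Q (C2 * (Q : ℝ) ^ (1 - ε / 26))
        (fun S hS => h2 Q hQ c hc S (fun q hq => by
          obtain ⟨h3, h4, h6⟩ := hS q hq
          exact ⟨h3, h4, hbad c k η ε q h6⟩))
      refine h3.trans (mul_le_mul_of_nonneg_right (by linarith) (by positivity))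
  · intro k hk ε hε
    have hk2 : (2 : ℝ) ≤ k := by exact_mod_cast hk
    have hη : (0 : ℝ) ≤ 1 / (k : ℝ) := by positivity
    have hη1 : 1 / (k : ℝ) ≤ 1 / 2 := one_div_le_one_div_of_le (by norm_num) hk2
    obtain ⟨C1, hC1, h1⟩ := sqf_exp k hk (1 / (k : ℝ)) ε hη hη1 hε
    obtain ⟨C2, hC2, h2⟩ := all_exp k hk (1 / (k : ℝ)) ε hη hη1 hε
    refine ⟨C1 + C2, by positivity, fun Q hQ t => ⟨?_, ?_⟩⟩
    · have h3 := count_le (fun q => Squarefree q ∧ ExceedsAt t k ε q) Q (C1 * (Q : ℝ) ^ (2 / (k : ℝ) - ε))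
        (fun S hS => by
          have h4 := h1 Q hQ (fun n => Pool.Agent.Y933.KD.e (t * (n : ℝ) ^ k))
            (fun n => (Pool.Agent.Y933.KD.norm_e _).le) S (fun q hq => by
              obtain ⟨h3, h4, h5, h6⟩ := hS q hq
              exact ⟨h5, h3, h4, exceeds_bad t k hk ε q (by omega) h6⟩)
          have h5 : 2 * (1 / (k : ℝ)) - ε = 2 / (k : ℝ) - ε := by ring
          rwa [h5] at h4)
      refine h3.trans (mul_le_mul_of_nonneg_right (by linarith) (by positivity))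
    · have h3 := count_le (fun q => ExceedsAt t k ε q) Q (C2 * (Q : ℝ) ^ (1 - ε / 26))
        (fun S hS => h2 Q hQ (fun n => Pool.Agent.Y933.KD.e (t * (n : ℝ) ^ k))
            (fun n => (Pool.Agent.Y933.KD.norm_e _).le) S (fun q hq => by
              obtain ⟨h3, h4, h6⟩ := hS q hq
              exact ⟨h3, h4, exceeds_bad t k hk ε q (by omega) h6⟩))
      refine h3.trans (mul_le_mul_of_nonneg_right (by linarith) (by positivity))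

end Pool.Agent.Results.MP_3b0be2_nt.AlmostAllModuli
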