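import Pool.Agent.Helper68K9.MW.Mul4

/-!
# MP_3b0be2_nt: the points `β + m α`, `m ≤ M`, of an arbitrary arithmetic progression

For all real `α`, `β`, uniformly in the linear coefficient, in bounded coefficients and over subintervals, the number
of multipliers `m ≤ M` at which the Weyl sum is large is bounded through the fourth moment (and the moments of order
`2^j + 2`) over the progression.  Consequence: for `k ≥ 4` the inequality of `H_k(1/k)` holds at `β + m α` for almost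
all `m`, at all lengths `N` with `N^(k-2) ≤ min (q, M)`, where `q` is a denominator of `α` (similarly with exponent
`1/3` for `k = 3`, with `N^k ≤ q ≤ M`); for `α` of irrationality exponent less than `1 + k/(k-2)` this gives
a bound for the number of exceptional `m ≤ M`, all `N ≥ N₀` with `N^(k-2) ≤ M` together.
-/

set_option autoImplicit false

namespace Pool.Agent.Results.MP_3b0be2_nt.EveryMultiple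

open Pool.Agent.Helper68K9.MW

/-- The multipliers `1 ≤ m ≤ M` for which `|∑_{u<n≤v} c_n e((β + m α) n^k + ξ n)| ≥ V` for some real `ξ` and some
`u`, `v` with `v ≤ N`. -/
def Large (c : ℕ → ℂ) (k N M : ℕ) (α β V : ℝ) : Set ℕ :=
  {m : ℕ | 1 ≤ m ∧ m ≤ M ∧ ∃ (ξ : ℝ) (u v : ℕ), v ≤ N ∧
    V ≤ ‖∑ n ∈ Finset.Ioc u v, c n * Complex.exp (2 * (Real.pi : ℂ) * Complex.I *
      (((β + (m : ℝ) * α) * (n : ℝ) ^ k + ξ * (n : ℝ) : ℝ) : ℂ))‖}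

/-- The inequality `|∑_{n≤N} c_n e(t n^k + ξ n)| ≤ N^(1+ε) (1/q + 1/N + q/N^k)^η` fails for some real `ξ` and some
coprime `1 ≤ a < q ≤ N` with `|t - a/q| ≤ 1/q²`. -/
def Fails (c : ℕ → ℂ) (k : ℕ) (η ε : ℝ) (N : ℕ) (t : ℝ) : Prop :=
  ∃ (ξ : ℝ) (a q : ℕ), 1 ≤ a ∧ a < q ∧ q ≤ N ∧ Nat.Coprime a q ∧ |t - (a : ℝ) / (q : ℝ)| ≤ 1 / (q : ℝ) ^ 2 ∧
    (N : ℝ) ^ (1 + ε) * (1 / (q : ℝ) + 1 / (N : ℝ) + (q : ℝ) / (N : ℝ) ^ k) ^ η <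
      ‖∑ n ∈ Finset.Icc 1 N, c n * Complex.exp (2 * (Real.pi : ℂ) * Complex.I *
        ((t * (n : ℝ) ^ k + ξ * (n : ℝ) : ℝ) : ℂ))‖

/-- **(1)** `k ≥ 3`: the number of `m ≤ M` in `Large` is at most
`C N^ε (1 + log q) (N³ M + N^(k+1) M/q + N^(k+1) + N q) / V⁴`.

**(2)** `2 ≤ j ≤ k`: it is at most `C N^(2^j+2-j+ε) (1 + log q) (M + N^k M/q + N^k + q) / V^(2^j+2)`.

**(3)** `k ≥ 3`, `0 ≤ η ≤ 1/4` (so `η = 1/k` is allowed for `k ≥ 4`), `N^(k-2) ≤ min(q, M)`, `q ≤ N₀² M`: for all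
`m ≤ M` with at most `C (1 + log q) M N₀^(-(1-4η+3ε))` exceptions, the inequality with exponent `η` holds at
`β + m α` for all lengths `X`, `N₀ ≤ X ≤ N`.

**(4)** `2 ≤ j ≤ k`, `0 ≤ η ≤ j/(2^j+2)` (so `η = 1/3` for `j = 2`), `N^k ≤ q ≤ M`: the same with at most
`C (1 + log q) M N₀^(-(j-(2^j+2)η+(2^j+1)ε))` exceptions.

**(5)** `k ≥ 3`, `0 ≤ η ≤ 1/4`, `1 ≤ τ ≤ k/(k-2)`, `κ > 0`: if `|α - a/q| ≥ κ q^(-1-τ)` for all `a`, `q`, then for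
all `m ≤ M` with at most `C M N₀^(-(1-4η+2ε))` exceptions the inequality with exponent `η` holds at `β + m α` for all
lengths `X ≥ N₀` with `X^(k-2) ≤ M`. -/
theorem result :
    (∀ k : ℕ, 3 ≤ k → ∀ ε : ℝ, 0 < ε → ∃ C : ℝ, 0 < C ∧ ∀ N : ℕ, 1 ≤ N →
      ∀ c : ℕ → ℂ, (∀ n, ‖c n‖ ≤ 1) → ∀ α β : ℝ, ∀ q : ℕ, 1 ≤ q → ∀ a : ℤ, IsCoprime a (q : ℤ) →
      |α - a / q| ≤ 1 / (q : ℝ) ^ 2 → ∀ M : ℕ, ∀ V : ℝ, 0 < V →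
      ((Large c k N M α β V).ncard : ℝ) ≤ C * (N : ℝ) ^ ε * (1 + Real.log q) *
        ((N : ℝ) ^ 3 * M + (N : ℝ) ^ (k + 1) * M / q + (N : ℝ) ^ (k + 1) + (N : ℝ) * q) / V ^ 4) ∧
    (∀ k j : ℕ, 2 ≤ j → j ≤ k → ∀ ε : ℝ, 0 < ε → ∃ C : ℝ, 0 < C ∧ ∀ N : ℕ, 1 ≤ N →
      ∀ c : ℕ → ℂ, (∀ n, ‖c n‖ ≤ 1) → ∀ α β : ℝ, ∀ q : ℕ, 1 ≤ q → ∀ a : ℤ, IsCoprime a (q : ℤ) →
      |α - a / q| ≤ 1 / (q : ℝ) ^ 2 → ∀ M : ℕ, ∀ V : ℝ, 0 < V →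
      ((Large c k N M α β V).ncard : ℝ) ≤ C * (N : ℝ) ^ ((2 : ℝ) ^ j + 2 - j + ε) * (1 + Real.log q) *
        (M + (N : ℝ) ^ k * M / q + (N : ℝ) ^ k + q) / V ^ (2 ^ j + 2)) ∧
    (∀ k : ℕ, 3 ≤ k → ∀ η ε : ℝ, 0 ≤ η → η ≤ 1 / 4 → 0 < ε → ∃ C : ℝ, 0 < C ∧
      ∀ N0 N : ℕ, 1 ≤ N0 → N0 ≤ N →
      ∀ c : ℕ → ℂ, (∀ n, ‖c n‖ ≤ 1) → ∀ α β : ℝ, ∀ q : ℕ, 1 ≤ q → ∀ a : ℤ, IsCoprime a (q : ℤ) →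
      |α - a / q| ≤ 1 / (q : ℝ) ^ 2 → ∀ M : ℕ, N ^ (k - 2) ≤ q → N ^ (k - 2) ≤ M → q ≤ N0 ^ 2 * M →
      (({m : ℕ | 1 ≤ m ∧ m ≤ M ∧ ∃ X : ℕ, N0 ≤ X ∧ X ≤ N ∧ Fails c k η ε X (β + (m : ℝ) * α)}.ncard : ℕ) : ℝ) ≤
        C * (1 + Real.log q) * M * (N0 : ℝ) ^ (-(1 - 4 * η + 3 * ε))) ∧
    (∀ k j : ℕ, 2 ≤ j → j ≤ k → ∀ η ε : ℝ, 0 ≤ η → (2 ^ j + 2) * η ≤ j → 0 < ε → ∃ C : ℝ, 0 < C ∧
      ∀ N0 N : ℕ, 1 ≤ N0 → N0 ≤ N →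
      ∀ c : ℕ → ℂ, (∀ n, ‖c n‖ ≤ 1) → ∀ α β : ℝ, ∀ q : ℕ, 1 ≤ q → ∀ a : ℤ, IsCoprime a (q : ℤ) →
      |α - a / q| ≤ 1 / (q : ℝ) ^ 2 → ∀ M : ℕ, N ^ k ≤ q → q ≤ M →
      (({m : ℕ | 1 ≤ m ∧ m ≤ M ∧ ∃ X : ℕ, N0 ≤ X ∧ X ≤ N ∧ Fails c k η ε X (β + (m : ℝ) * α)}.ncard : ℕ) : ℝ) ≤
        C * (1 + Real.log q) * M * (N0 : ℝ) ^ (-((j : ℝ) - (2 ^ j + 2) * η + (2 ^ j + 1) * ε))) ∧
    (∀ k : ℕ, 3 ≤ k → ∀ η ε : ℝ, 0 ≤ η → η ≤ 1 / 4 → 0 < ε → ∀ τ κ : ℝ, 1 ≤ τ → ((k : ℝ) - 2) * τ ≤ k → 0 < κ →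
      ∃ C : ℝ, 0 < C ∧
      ∀ α : ℝ, (∀ (a : ℤ) (q : ℕ), 1 ≤ q → κ / (q : ℝ) ^ (1 + τ) ≤ |α - a / q|) →
      ∀ c : ℕ → ℂ, (∀ n, ‖c n‖ ≤ 1) → ∀ β : ℝ, ∀ N0 M : ℕ, 1 ≤ N0 →
      (({m : ℕ | 1 ≤ m ∧ m ≤ M ∧ ∃ X : ℕ, N0 ≤ X ∧ X ^ (k - 2) ≤ M ∧
        Fails c k η ε X (β + (m : ℝ) * α)}.ncard : ℕ) : ℝ) ≤ C * M * (N0 : ℝ) ^ (-(1 - 4 * η + 2 * ε))) := by
  refine ⟨?_, ?_, ?_, ?_, ?_⟩
  · intro k hk ε hε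
    exact four k hk ε hε
  · intro k j hj hjk ε hε
    exact gen k j hj hjk ε hε
  · intro k hk η ε hη hη1 hε
    exact mont4 k hk η ε hη hη1 hε
  · intro k j hj hjk η ε hη hη1 hε
    exact mont k j hj hjk η ε hη hη1 hε
  · intro k hk η ε hη hη1 hε τ κ hτ hτk hκ
    exact density k hk η ε hη hη1 hε τ κ hτ hτk hκ

end Pool.Agent.Results.MP_3b0be2_nt.EveryMultiple
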