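import Pool.Agent.Helper10K9.MWS.Cov
import Pool.Agent.Helper10K9.MWS.Mdp
import Pool.Agent.Helper34K9.HM.Dim

/-!
# MP_3b0be2_nt: leading coefficients at which the inequality of `H_k(η)` fails

Uniformly in the linear coefficient and for arbitrary bounded coefficients, the set of leading
coefficients `t` at which the inequality with exponent `η` fails (for `q ≤ N^θ`, with a loss `N^ε`;
`r = θ η - ε`) has Hausdorff dimension at most the least of the numbers `1 - (j - (2^j + 2) r) / k`,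
`2 ≤ j ≤ k`, and, when `k ≥ 3` and `r < 1/4`, of `1 - (3 - 8 r) / k`; it is null for every measure satisfying
the Frostman condition with an exponent above this number.  For instance the inequality of `H_k(1/3)`, in
particular that of `H_3(1/3)`, holds at almost every `t`, and for `k ≥ 4` the inequality of `H_k(1/k)` fails
on a set of dimension at most `1 - (3 k - 8) / k^2` only.

The first family of bounds is due to helper10 (moments of order `2^j + 2`), the last one to helper34 (fourth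
power without its diagonal).
-/

set_option autoImplicit false

open MeasureTheory

namespace Pool.Agent.Results.MP_3b0be2_nt.ExceptionalSets

open Pool.Agent.Helper10K9.MWS
open Pool.Agent.W928.MW (e)

/-- The set of real `t` for which no constant `C` makes
`|∑_{n ≤ N} c_n e(t n^k + ξ n)| ≤ C N^(1+ε) (1/q + 1/N + q/N^k)^η`
true for all `N ≥ 2`, all real `ξ` and all coprime `1 ≤ a < q ≤ N^θ` with `|t - a/q| ≤ 1/q²`. -/
def Exceptional (c : ℕ → ℂ) (k : ℕ) (θ η ε : ℝ) : Set ℝ :=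
  {t : ℝ | ¬ ∃ C : ℝ, ∀ N : ℕ, 2 ≤ N → ∀ ξ : ℝ, ∀ a q : ℕ, 1 ≤ a → a < q → (q : ℝ) ≤ (N : ℝ) ^ θ →
    Nat.Coprime a q → |t - (a : ℝ) / (q : ℝ)| ≤ 1 / (q : ℝ) ^ 2 →
    ‖∑ n ∈ Finset.Icc 1 N, c n *
        Complex.exp (2 * (Real.pi : ℂ) * Complex.I * ((t * (n : ℝ) ^ k + ξ * (n : ℝ) : ℝ) : ℂ))‖ ≤
      C * (N : ℝ) ^ (1 + ε) * (1 / (q : ℝ) + 1 / (N : ℝ) + (q : ℝ) / (N : ℝ) ^ k) ^ η}

theorem exceptional_subset (c : ℕ → ℂ) (k : ℕ) (θ η ε : ℝ) (hη : 0 ≤ η) :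
    Exceptional c k θ η ε ⊆ {t : ℝ | ¬ ∃ C : ℝ, HoldsK c k (1 - θ * η + ε) C t} := by
  intro t ht hC
  apply ht
  obtain ⟨C, hC⟩ := hC
  refine ⟨|C|, ?_⟩
  intro N hN ξ a q ha haq hqN _ _
  have hN1 : (1 : ℝ) ≤ N := by
    have : 1 ≤ N := by omega
    exact_mod_cast this
  have hN0 : (0 : ℝ) < N := by linarith
  have hq0 : (0 : ℝ) < q := by
    have : 0 < q := by omega
    exact_mod_cast this
  have h1 := hC N hN ξ
  have h2 : smc c k N t ξ = ∑ n ∈ Finset.Icc 1 N, c n *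
        Complex.exp (2 * (Real.pi : ℂ) * Complex.I * ((t * (n : ℝ) ^ k + ξ * (n : ℝ) : ℝ) : ℂ)) := rfl
  rw [h2] at h1
  have h3 : (N : ℝ) ^ (1 - θ * η + ε) = (N : ℝ) ^ (1 + ε) * ((N : ℝ) ^ (-θ)) ^ η := by
    rw [← Real.rpow_mul hN0.le, ← Real.rpow_add hN0]
    congr 1
    ring
  have h4 : (N : ℝ) ^ (-θ) ≤ 1 / (q : ℝ) := by
    rw [Real.rpow_neg hN0.le, ← one_div]
    exact one_div_le_one_div_of_le hq0 hqN
  have h5 : ((N : ℝ) ^ (-θ)) ^ η ≤ (1 / (q : ℝ) + 1 / (N : ℝ) + (q : ℝ) / (N : ℝ) ^ k) ^ η := by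
    apply Real.rpow_le_rpow (by positivity) _ hη
    have h6 : (0 : ℝ) ≤ 1 / (N : ℝ) + (q : ℝ) / (N : ℝ) ^ k := by positivity
    linarith
  calc _ ≤ C * (N : ℝ) ^ (1 - θ * η + ε) := h1
    _ ≤ |C| * (N : ℝ) ^ (1 - θ * η + ε) := mul_le_mul_of_nonneg_right (le_abs_self C) (by positivity)
    _ = |C| * (N : ℝ) ^ (1 + ε) * ((N : ℝ) ^ (-θ)) ^ η := by rw [h3]; ring
    _ ≤ _ := mul_le_mul_of_nonneg_left h5 (by positivity)

/-- the numbers which bound the dimension, `r = θ η - ε` -/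
def IsBound (k : ℕ) (r D : ℝ) : Prop :=
  (∃ j : ℕ, 2 ≤ j ∧ j ≤ k ∧ D = 1 - ((j : ℝ) - (2 ^ j + 2) * r) / k) ∨
    (3 ≤ k ∧ r < 1 / 4 ∧ D = 1 - (3 - 8 * r) / k)

/-- **Theorem.** Bounded coefficients `c_n`, `η ≥ 0`, `θ`, `ε` real. The exceptional set has Hausdorff
dimension at most `D`, for every number `D` in the list `IsBound k (θ η - ε)`, and is a null set for every
Borel measure `μ` on the line with `μ [x, x + h] ≤ B h^s` for all `x` and `0 < h ≤ 1`, where `s > D`,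
`s > 0`. -/
theorem result (k : ℕ) (c : ℕ → ℂ) (hc : ∀ n, ‖c n‖ ≤ 1) (θ η ε : ℝ) (hη : 0 ≤ η) (D : ℝ)
    (hD : IsBound k (θ * η - ε) D) :
    dimH (Exceptional c k θ η ε) ≤ ENNReal.ofReal D ∧
    ∀ (μ : Measure ℝ) (s B : ℝ), 0 < s → D < s →
      (∀ x h : ℝ, 0 < h → h ≤ 1 → μ (Set.Icc x (x + h)) ≤ ENNReal.ofReal (B * h ^ s)) →
      μ (Exceptional c k θ η ε) = 0 := by
  have hdim : dimH (Exceptional c k θ η ε) ≤ ENNReal.ofReal D := by
    rcases hD with ⟨j, hj, hjk, rfl⟩ | ⟨hk, hr, rfl⟩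
    · have hk0 : (0 : ℝ) < k := by
        have : 0 < k := by omega
        exact_mod_cast this
      by_cases hκ : 0 ≤ 1 - θ * η + ε
      · have h2 := dim_kappa c hc k j hj hjk (1 - θ * η + ε) hκ
        have h3 : (j : ℝ) - (2 ^ j + 2) * (1 - (1 - θ * η + ε)) =
            (j : ℝ) - (2 ^ j + 2) * (θ * η - ε) := by ring
        rw [h3] at h2
        exact (dimH_mono (exceptional_subset c k θ η ε hη)).trans h2
      · have h1 : 1 < θ * η - ε := by linarith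
        have h2 : ((j : ℝ) - (2 ^ j + 2) * (θ * η - ε)) / k ≤ 0 := by
          apply div_nonpos_of_nonpos_of_nonneg _ hk0.le
          have h3 : (j : ℝ) < 2 ^ j := by exact_mod_cast Nat.lt_two_pow_self
          have h4 : (0 : ℝ) < 2 ^ j + 2 := by positivity
          nlinarith
        calc dimH (Exceptional c k θ η ε) ≤ dimH (Set.univ : Set ℝ) := dimH_mono (Set.subset_univ _)
          _ = 1 := Real.dimH_univ
          _ = ENNReal.ofReal 1 := ENNReal.ofReal_one.symm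
          _ ≤ _ := ENNReal.ofReal_le_ofReal (by linarith)
    · have hκ : 3 / 4 < 1 - θ * η + ε := by linarith
      have h2 := Pool.Agent.Helper34K9.HM.dim8 c hc k hk (1 - θ * η + ε) hκ
      have h3 : (3 : ℝ) - 8 * (1 - (1 - θ * η + ε)) = 3 - 8 * (θ * η - ε) := by ring
      rw [h3] at h2
      exact (dimH_mono (exceptional_subset c k θ η ε hη)).trans h2
  refine ⟨hdim, fun μ s B hs hDs hμ => mdp μ s B hs hμ _ (hdim.trans_lt ?_)⟩
  exact (ENNReal.ofReal_lt_ofReal_iff hs).2 hDs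

/-- Lebesgue measure -/
theorem null (k : ℕ) (c : ℕ → ℂ) (hc : ∀ n, ‖c n‖ ≤ 1) (θ η ε : ℝ) (hη : 0 ≤ η) (D : ℝ)
    (hD : IsBound k (θ * η - ε) D) (hD1 : D < 1) : volume (Exceptional c k θ η ε) = 0 := by
  refine (result k c hc θ η ε hη D hD).2 volume 1 1 one_pos hD1 fun x h _ _ => ?_
  rw [Real.volume_Icc]
  apply ENNReal.ofReal_le_ofReal
  rw [Real.rpow_one]
  linarith

/-- the conjectured exponent `1/k` -/
theorem exponent_one_div_k (k : ℕ) (hk : 4 ≤ k) (c : ℕ → ℂ) (hc : ∀ n, ‖c n‖ ≤ 1) (ε : ℝ) (hε : 0 < ε) :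
    dimH (Exceptional c k 1 (1 / k) ε) ≤ ENNReal.ofReal (1 - (3 * k - 8) / (k : ℝ) ^ 2 - 8 * ε / k) := by
  have hk0 : (4 : ℝ) ≤ k := by exact_mod_cast hk
  have h1 : (1 : ℝ) / k ≤ 1 / 4 := one_div_le_one_div_of_le (by norm_num) hk0
  have h2 := (result k c hc 1 (1 / k) ε (by positivity) _ (Or.inr ⟨by omega, by linarith, rfl⟩)).1
  refine h2.trans (le_of_eq ?_)
  congr 1
  field_simp
  ring

/-- the inequality of `H_k(1/3)` at almost every leading coefficient, uniformly in the linear one -/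
theorem ae_third (k : ℕ) (hk : 2 ≤ k) (c : ℕ → ℂ) (hc : ∀ n, ‖c n‖ ≤ 1) :
    ∀ᵐ t : ℝ, ∀ ε : ℝ, 0 < ε → ∃ C : ℝ, ∀ N : ℕ, 2 ≤ N → ∀ ξ : ℝ, ∀ a q : ℕ, 1 ≤ a → a < q → q ≤ N →
    Nat.Coprime a q → |t - (a : ℝ) / (q : ℝ)| ≤ 1 / (q : ℝ) ^ 2 →
    ‖∑ n ∈ Finset.Icc 1 N, c n *
        Complex.exp (2 * (Real.pi : ℂ) * Complex.I * ((t * (n : ℝ) ^ k + ξ * (n : ℝ) : ℝ) : ℂ))‖ ≤
      C * (N : ℝ) ^ (1 + ε) * (1 / (q : ℝ) + 1 / (N : ℝ) + (q : ℝ) / (N : ℝ) ^ k) ^ (1 / 3 : ℝ) := by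
  have h1 : ∀ m : ℕ, ∀ᵐ t : ℝ, t ∉ Exceptional c k 1 (1 / 3) (1 / ((m : ℝ) + 1)) := by
    intro m
    have hk0 : (0 : ℝ) < k := by
      have : 0 < k := by omega
      exact_mod_cast this
    have h2 := null k c hc 1 (1 / 3) (1 / ((m : ℝ) + 1)) (by norm_num) _
      (Or.inl ⟨2, le_rfl, hk, rfl⟩) (by
        have h3 : 0 < 1 / ((m : ℝ) + 1) := by positivity
        have h4 : 0 < (((2 : ℕ) : ℝ) - (2 ^ 2 + 2) * (1 * (1 / 3) - 1 / ((m : ℝ) + 1))) / k := by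
          apply div_pos _ hk0
          push_cast
          linarith
        linarith)
    exact measure_eq_zero_iff_ae_notMem.mp h2
  rw [← ae_all_iff] at h1
  filter_upwards [h1] with t ht
  intro ε hε
  obtain ⟨m, hm⟩ := exists_nat_one_div_lt hε
  have h2 := ht m
  unfold Exceptional at h2
  rw [Set.mem_ofPred_eq, not_not] at h2
  obtain ⟨C, hC⟩ := h2
  refine ⟨|C|, ?_⟩
  intro N hN ξ a q ha haq hqN hcop hap
  have hN1 : (1 : ℝ) ≤ N := by
    have : 1 ≤ N := by omega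
    exact_mod_cast this
  refine (hC N hN ξ a q ha haq (by rw [Real.rpow_one]; exact_mod_cast hqN) hcop hap).trans ?_
  apply mul_le_mul_of_nonneg_right _ (by positivity)
  calc C * (N : ℝ) ^ (1 + 1 / ((m : ℝ) + 1)) ≤ |C| * (N : ℝ) ^ (1 + 1 / ((m : ℝ) + 1)) :=
        mul_le_mul_of_nonneg_right (le_abs_self C) (by positivity)
    _ ≤ |C| * (N : ℝ) ^ (1 + ε) := by
        apply mul_le_mul_of_nonneg_left _ (abs_nonneg C)
        exact Real.rpow_le_rpow_of_exponent_le hN1 (by linarith)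

end Pool.Agent.Results.MP_3b0be2_nt.ExceptionalSets
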