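import Pool.Agent.Helper34K9.FD.Fin

/-!
# MP_3b0be2_nt: the inequality of `H_k(1/k)` at almost every point of a measure with Fourier decay

For a finite measure `μ` on the line whose Fourier coefficients are `O(|n| ^ (-a))`, arbitrary bounded
coefficients `c_n` and all real `ξ`, the sums `∑_{n ≤ N} c_n e(t n^k + ξ n)` are
`O(N ^ (1 - min 1 (a k) / 4 + ε))` at `μ`-almost every `t`.
-/

set_option autoImplicit false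

open MeasureTheory

namespace Pool.Agent.Results.MP_3b0be2_nt.FourierDecayMeasures

open Pool.Agent.Helper34K9.FD
open Pool.Agent.Helper10K9.MWS (smc HoldsK)
open Pool.Agent.W928.MW (e)

/-- `∑_{n ≤ N} c_n e(t n^k + ξ n)` -/
noncomputable def weylSum (c : ℕ → ℂ) (k N : ℕ) (t ξ : ℝ) : ℂ :=
  ∑ n ∈ Finset.Icc 1 N, c n *
    Complex.exp (2 * (Real.pi : ℂ) * Complex.I * ((t * (n : ℝ) ^ k + ξ * (n : ℝ) : ℝ) : ℂ))

/-- `∫ e(n t) dμ(t)` -/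
noncomputable def fourier (μ : Measure ℝ) (n : ℤ) : ℂ :=
  ∫ t, Complex.exp (2 * (Real.pi : ℂ) * Complex.I * ((t * (n : ℝ) : ℝ) : ℂ)) ∂μ

theorem weyl_eq (c : ℕ → ℂ) (k N : ℕ) (t ξ : ℝ) : weylSum c k N t ξ = smc c k N t ξ := rfl

theorem fourier_eq (μ : Measure ℝ) (n : ℤ) : ‖fourier μ n‖ = FT μ n := rfl

/-- all `ε` at once -/
theorem ae_all (μ : Measure ℝ) [IsFiniteMeasure μ] (a B : ℝ) (ha : 0 ≤ a)
    (hd : ∀ n : ℤ, n ≠ 0 → ‖fourier μ n‖ ≤ B * |(n : ℝ)| ^ (-a))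
    (c : ℕ → ℂ) (hc : ∀ n, ‖c n‖ ≤ 1) (k : ℕ) (hk2 : 2 ≤ k) :
    ∀ᵐ t ∂μ, ∀ ε : ℝ, 0 < ε → ∃ C : ℝ, ∀ N : ℕ, 2 ≤ N → ∀ ξ : ℝ,
      ‖weylSum c k N t ξ‖ ≤ C * (N : ℝ) ^ (1 - min 1 (a * k) / 4 + ε) := by
  have h1 : ∀ m : ℕ, ∀ᵐ t ∂μ, ∃ C : ℝ, HoldsK c k (1 - min 1 (a * k) / 4 + 1 / ((m : ℝ) + 1)) C t := by
    intro m
    refine ae_holds μ a B ha hd c hc k hk2 _ ?_
    have : 0 < 1 / ((m : ℝ) + 1) := by positivity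
    linarith
  rw [← ae_all_iff] at h1
  filter_upwards [h1] with t ht
  intro ε hε
  obtain ⟨m, hm⟩ := exists_nat_one_div_lt hε
  obtain ⟨C, hC⟩ := ht m
  refine ⟨|C|, ?_⟩
  intro N hN ξ
  have hN1 : (1 : ℝ) ≤ N := by
    have : 1 ≤ N := by omega
    exact_mod_cast this
  rw [weyl_eq]
  refine (hC N hN ξ).trans ?_
  calc C * (N : ℝ) ^ (1 - min 1 (a * k) / 4 + 1 / ((m : ℝ) + 1))
      ≤ |C| * (N : ℝ) ^ (1 - min 1 (a * k) / 4 + 1 / ((m : ℝ) + 1)) :=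
        mul_le_mul_of_nonneg_right (le_abs_self C) (by positivity)
    _ ≤ |C| * (N : ℝ) ^ (1 - min 1 (a * k) / 4 + ε) := by
        apply mul_le_mul_of_nonneg_left _ (abs_nonneg C)
        exact Real.rpow_le_rpow_of_exponent_le hN1 (by linarith)

/-- **Theorem.** Let `μ` be a finite measure on the line, `|c_n| ≤ 1`, `k ≥ 2`, `a ≥ 0`.
(1) If `a k ≤ 1` and the Fourier coefficients of `μ` of orders `0 < |n| ≤ 2 N^k` are at most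
`B |n|^(-a)`, then the measure of the set of `t` at which some sum of length at most `N` exceeds `lam` is at
most `(2N+1) (2 + log N)^4 (2 N^2 μ(ℝ) + 8 k B N^(3 - a k)) / lam^4`.
If all Fourier coefficients of nonzero order are at most `B |n|^(-a)`, then
(2) at `μ`-almost every `t` the sums are `O(N^(1 - min(1, a k)/4 + ε))`, uniformly in `ξ`;
(3) at `μ`-almost every `t` the inequality of `H_k(η)` holds for every `0 ≤ η ≤ min(1, a k)/4`;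
(4) if `k ≥ 4` and `a ≥ 4/k^2`, at `μ`-almost every `t` the inequality of `H_k(1/k)` holds. -/
theorem result (μ : Measure ℝ) [IsFiniteMeasure μ] (c : ℕ → ℂ) (hc : ∀ n, ‖c n‖ ≤ 1)
    (k : ℕ) (hk : 2 ≤ k) (a B : ℝ) (ha : 0 ≤ a) :
    (a * k ≤ 1 → 0 ≤ B → ∀ N : ℕ, 1 ≤ N →
      (∀ n : ℤ, n ≠ 0 → |n| ≤ 2 * (N : ℤ) ^ k → ‖fourier μ n‖ ≤ B * |(n : ℝ)| ^ (-a)) →
      ∀ lam : ℝ, 0 < lam →
      μ {t : ℝ | ∃ M : ℕ, M ≤ N ∧ ∃ ξ : ℝ, lam < ‖weylSum c k M t ξ‖} ≤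
        ENNReal.ofReal ((2 * (N : ℝ) + 1) * (2 + Real.log N) ^ 4 *
          (2 * (N : ℝ) ^ 2 * μ.real Set.univ + 8 * k * B * (N : ℝ) ^ (3 - a * k)) / lam ^ 4)) ∧
    ((∀ n : ℤ, n ≠ 0 → ‖fourier μ n‖ ≤ B * |(n : ℝ)| ^ (-a)) →
      (∀ᵐ t ∂μ, ∀ ε : ℝ, 0 < ε → ∃ C : ℝ, ∀ N : ℕ, 2 ≤ N → ∀ ξ : ℝ,
        ‖weylSum c k N t ξ‖ ≤ C * (N : ℝ) ^ (1 - min 1 (a * k) / 4 + ε)) ∧
      (∀ᵐ t ∂μ, ∀ η : ℝ, 0 ≤ η → η ≤ min 1 (a * k) / 4 → ∀ ε : ℝ, 0 < ε → ∃ C : ℝ,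
        ∀ N : ℕ, 2 ≤ N → ∀ ξ : ℝ, ∀ b q : ℕ, 1 ≤ b → b < q → q ≤ N → Nat.Coprime b q →
        |t - (b : ℝ) / (q : ℝ)| ≤ 1 / (q : ℝ) ^ 2 →
        ‖weylSum c k N t ξ‖ ≤
          C * (N : ℝ) ^ (1 + ε) * (1 / (q : ℝ) + 1 / (N : ℝ) + (q : ℝ) / (N : ℝ) ^ k) ^ η) ∧
      (4 ≤ k → 4 / (k : ℝ) ^ 2 ≤ a → ∀ᵐ t ∂μ, ∀ ε : ℝ, 0 < ε → ∃ C : ℝ,
        ∀ N : ℕ, 2 ≤ N → ∀ ξ : ℝ, ∀ b q : ℕ, 1 ≤ b → b < q → q ≤ N → Nat.Coprime b q →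
        |t - (b : ℝ) / (q : ℝ)| ≤ 1 / (q : ℝ) ^ 2 →
        ‖weylSum c k N t ξ‖ ≤
          C * (N : ℝ) ^ (1 + ε) * (1 / (q : ℝ) + 1 / (N : ℝ) + (q : ℝ) / (N : ℝ) ^ k) ^ (1 / (k : ℝ)))) := by
  refine ⟨?_, ?_⟩
  · intro hak hB N hN hd lam hl
    exact meas_max μ a B ha hB c hc k N hd hk hak hN lam hl
  intro hd
  have h2 := ae_all μ a B ha hd c hc k hk
  have h3 : ∀ᵐ t ∂μ, ∀ η : ℝ, 0 ≤ η → η ≤ min 1 (a * k) / 4 → ∀ ε : ℝ, 0 < ε → ∃ C : ℝ,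
        ∀ N : ℕ, 2 ≤ N → ∀ ξ : ℝ, ∀ b q : ℕ, 1 ≤ b → b < q → q ≤ N → Nat.Coprime b q →
        |t - (b : ℝ) / (q : ℝ)| ≤ 1 / (q : ℝ) ^ 2 →
        ‖weylSum c k N t ξ‖ ≤
          C * (N : ℝ) ^ (1 + ε) * (1 / (q : ℝ) + 1 / (N : ℝ) + (q : ℝ) / (N : ℝ) ^ k) ^ η := by
    filter_upwards [h2] with t ht
    intro η hη0 hη ε hε
    obtain ⟨C, hC⟩ := ht ε hε
    refine ⟨|C|, ?_⟩
    intro N hN ξ b q hb hbq hqN _ _
    have hN1 : (1 : ℝ) ≤ N := by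
      have : 1 ≤ N := by omega
      exact_mod_cast this
    have hN0 : (0 : ℝ) < N := by linarith
    have hq0 : (0 : ℝ) < q := by
      have : 0 < q := by omega
      exact_mod_cast this
    have g1 : (N : ℝ) ^ (1 - min 1 (a * k) / 4 + ε) ≤ (N : ℝ) ^ (1 + ε) * (1 / (N : ℝ)) ^ η := by
      have g2 : (N : ℝ) ^ (1 + ε) * (1 / (N : ℝ)) ^ η = (N : ℝ) ^ (1 - η + ε) := by
        rw [one_div, ← Real.rpow_neg_one, ← Real.rpow_mul hN0.le, ← Real.rpow_add hN0]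
        congr 1
        ring
      rw [g2]
      exact Real.rpow_le_rpow_of_exponent_le hN1 (by linarith)
    have g3 : (1 / (N : ℝ)) ^ η ≤ (1 / (q : ℝ) + 1 / (N : ℝ) + (q : ℝ) / (N : ℝ) ^ k) ^ η := by
      apply Real.rpow_le_rpow (by positivity) _ hη0
      have h6 : (0 : ℝ) ≤ 1 / (q : ℝ) := by positivity
      have h7 : (0 : ℝ) ≤ (q : ℝ) / (N : ℝ) ^ k := by positivity
      linarith
    calc ‖weylSum c k N t ξ‖ ≤ C * (N : ℝ) ^ (1 - min 1 (a * k) / 4 + ε) := hC N hN ξ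
      _ ≤ |C| * (N : ℝ) ^ (1 - min 1 (a * k) / 4 + ε) :=
          mul_le_mul_of_nonneg_right (le_abs_self C) (by positivity)
      _ ≤ |C| * ((N : ℝ) ^ (1 + ε) * (1 / (N : ℝ)) ^ η) := mul_le_mul_of_nonneg_left g1 (abs_nonneg C)
      _ ≤ |C| * ((N : ℝ) ^ (1 + ε) * (1 / (q : ℝ) + 1 / (N : ℝ) + (q : ℝ) / (N : ℝ) ^ k) ^ η) := by
          gcongr
      _ = _ := by ring
  refine ⟨h2, h3, ?_⟩
  intro hk4 ha4
  filter_upwards [h3] with t ht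
  have hk0 : (4 : ℝ) ≤ k := by exact_mod_cast hk4
  refine ht (1 / (k : ℝ)) (by positivity) ?_
  rw [le_div_iff₀ (by norm_num), le_min_iff]
  constructor
  · rw [one_div, ← div_eq_inv_mul, div_le_one (by linarith)]
    exact hk0
  · have g4 : 4 / (k : ℝ) ^ 2 * k ≤ a * k := mul_le_mul_of_nonneg_right ha4 (by linarith)
    have g5 : 4 / (k : ℝ) ^ 2 * k = 1 / (k : ℝ) * 4 := by
      have : (k : ℝ) ≠ 0 := by linarith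
      field_simp
    linarith

end Pool.Agent.Results.MP_3b0be2_nt.FourierDecayMeasures
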